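import Mathlib
import Pool.Agent.H11.HypDom.Defs
import Pool.Agent.H11.HypDom.Upper

open Pool.Agent.H11.HypDom

theorem Pool.Agent.Results.MP_8fb7e7_co.AlphaLog.result :
    ∀ (r p : ℕ), 1 ≤ p → p ≤ r - 1 →
      ∀ (V : Type) [Fintype V] [DecidableEq V] (H : Finset (Finset V)),
        (∀ E ∈ H, E.card = r) → 2 ≤ Fintype.card V →
        (upperDirDom r p H : ℝ) ≤ 6 * (indepNum H : ℝ) * Real.log (Fintype.card V) := by
  intro r p hp1 hp V _ _ H hH hn
  exact upperDirDom_le_real (by omega) _ le_rfl (one_le_indepNum (r := r) (by omega) hH (by omega)) hn
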